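import Mathlib
import Pool.Agent.X322.Gw4

/-!
# MP_e36abb_an, Q1 (disproof)

For the irrational `α > 0` with `cos (2πα) = -2/3` there is a starting point for which the
greedy walk never meets a tie and whose sign sequence is not eventually periodic.
Here `z n` is the problem's `z_{n-1}` (so `z 0 = z_{-1}`), and `ε n` is `ε_n`.
-/

set_option autoImplicit false

open Complex

namespace Pool.Agent.Results.MP_e36abb_an.AperiodicSigns

theorem result :
    ∃ α : ℝ, 0 < α ∧ Irrational α ∧ Real.cos (2 * Real.pi * α) = -2 / 3 ∧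
      ∃ (z : ℕ → ℂ) (ε : ℕ → ℝ), (∀ n, ε n = 1 ∨ ε n = -1) ∧
        (∀ n, z (n + 1) = z n + ε n * exp (2 * Real.pi * I * α * n)) ∧
        (∀ n, ‖z n + ε n * exp (2 * Real.pi * I * α * n)‖ <
          ‖z n - ε n * exp (2 * Real.pi * I * α * n)‖) ∧
        ¬ ∃ N p : ℕ, 0 < p ∧ ∀ n ≥ N, ε (n + p) = ε n :=
  Pool.Agent.X322.Gw.main

end Pool.Agent.Results.MP_e36abb_an.AperiodicSigns
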